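import Pool.Agent.Q287.BA.SSEP

/-!
# Strong shift equivalence: bounded advice does not help, even with errors

Suppose that there are `k` algorithms (which need not halt always) such that for every size `n` and
every `H` one of them decides strong shift equivalence over the nonnegative integers for most of the
pairs of `n × n` matrices with entries up to `H`: with at most `H ^ ((1 - ε) n ^ 2)` failures (it does
not halt or gives the wrong answer), up to a computable factor which depends on `n`. Which of the
algorithms is the good one may depend on `n` and `H` in an arbitrary, non-computable way. Then strong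
shift equivalence over the nonnegative integers is decidable, for pairs of matrices of all sizes.

The reason: adding dead ends (new columns whose entries above the diagonal are arbitrary and new rows
which are zero on and below the diagonal) does not change the class of a matrix. A majority vote
among these pairs gives for all `n` and `H` a list of `k` candidates for the answers, which need not
halt, and one of which is right for all small inputs. A finite set of inputs tells for infinitely many
sizes which candidates halt, and further inputs rule out enough of these.
-/

set_option autoImplicit false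

namespace Pool.Agent.Results.MP_993212_an.BoundedAdvice

open Pool.Agent.Q324.SC Pool.Agent.Q324.SC.Mat

/-- For every `q ≥ 1` strong shift equivalence over `ℕ` is decidable if and only if there are a
number `k`, partial computable functions `A (0, ·), …, A (k - 1, ·)` and a computable `K` such that
for every size `n` and every `H` there is `i < k` such that the number `E` of the pairs of `n × n`
matrices with entries in `[0, H]` for which `A (i, ·)` does not halt or gives the wrong answer
satisfies `E ^ q ≤ K n (H + 1) ^ ((q - 1) n ^ 2)`. -/
theorem result (q : ℕ) (hq : 1 ≤ q) : ComputablePred SSE ↔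
    ∃ (k : ℕ) (A : ℕ × List (List ℕ) × List (List ℕ) →. Bool) (K : ℕ → ℕ),
      Partrec A ∧ Computable K ∧
      ∀ n H : ℕ, ∃ i < k, {p | p ∈ Inputs n H ∧ ¬ ∃ b ∈ A (i, p), (b = true ↔ SSE p)}.encard ^ q
          ≤ ((K n * (H + 1) ^ ((q - 1) * n ^ 2) : ℕ) : ℕ∞) := by
  refine ⟨?_, ?_⟩
  · rintro ⟨inst, hc⟩
    refine ⟨1, fun x => Part.some (decide (SSE x.2)), fun _ => 0,
      Computable.partrec (hc.comp Computable.snd), Computable.const 0,
      fun n H => ⟨0, Nat.one_pos, ?_⟩⟩
    have h1 : {p | p ∈ Inputs n H ∧ ¬ ∃ b ∈ Part.some (decide (SSE p)), (b = true ↔ SSE p)} = ∅ := by
      ext p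
      simp
    rw [h1, Set.encard_empty, zero_pow (by omega)]
    simp
  · rintro ⟨k, A, K, hA, hK, h⟩
    obtain ⟨r, rfl⟩ : ∃ r, q = r + 1 := ⟨q - 1, by omega⟩
    refine Pool.Agent.Q287.BA.Sse.advicep k r hA hK fun R H => ?_
    obtain ⟨i, hi, h1⟩ := h R H
    refine ⟨i, hi, ?_⟩
    rw [Nat.add_sub_cancel] at h1
    exact h1

end Pool.Agent.Results.MP_993212_an.BoundedAdvice
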