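import Pool.Agent.Q133.TR.Ext3

/-!
# Strong shift equivalence of extensions by a full shift

For a square matrix `A` over the nonnegative integers, a column `u` with positive entries and a
number `N` let `ex A u N` be the block matrix `[[A, u], [0, N]]`: from every vertex `i` of the graph
of `A` there are `u i` edges to a new vertex with `N` loops. Let `~` be strong shift equivalence over
the nonnegative integers.

(1) Let `N ≥ 2` be larger than all row sums of `A` and of `B`. Then `ex A u N ~ ex B u' N` if and only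
if some chain of elementary equivalences `A = R_1 S_1`, `S_1 R_1 = R_2 S_2`, …, `S_l R_l = B` carries
the class of `u` in `ℤ^m / (N - B) ℤ^m` to that of `u'`, up to a divisor `r` of a power of `N`:
`S_l ⋯ S_1 u ≡ r u'`.

(2) For every `A` and `N ≥ 2`: if `r u ≡ r' u'` modulo `(N - A) ℤ^n` for divisors `r`, `r'` of a power
of `N`, then `ex A u N ~ ex A u' N`. In particular (3) this holds if `det (N - A)` divides
`u i - u' i` for all `i`.

(4) If in (1) `det (N - B) = ± 1`, then `ex A u N ~ ex B u' N` if and only if `A ~ B`, whatever the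
positive columns are.

Proof. For the existence of equivalences: `[[A, x + N y], [0, N]] ~ [[A, x + A y], [0, N]]`, and two
positive columns which are congruent are joined, after multiplication by a power of `N`, by small
steps through positive columns. For the necessity: the vertices at which the number of the paths
ending there grows slower than `N ^ k` are respected by elementary equivalences, and the value of
the connecting block at a right eigenvector of the rest is a class modulo `N - (the part)` which is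
carried along.
-/

set_option autoImplicit false

namespace Pool.Agent.Results.MP_993212_an.FullShiftExtensions

open Pool.Agent.Q324.SC.Mat Pool.Agent.Q133.TR Matrix

theorem result :
    -- (1)
    (∀ (n m N : ℕ) (A : Matrix (Fin n) (Fin n) ℕ) (B : Matrix (Fin m) (Fin m) ℕ) (u : Fin n → ℕ)
      (u' : Fin m → ℕ), 2 ≤ N → (∀ i, ∑ j, A i j < N) → (∀ i, ∑ j, B i j < N) →
      (∀ i, 0 < u i) → (∀ i, 0 < u' i) →
      (Sim (ex A u N) (ex B u' N) ↔
        ∃ (s : Matrix (Fin m) (Fin n) ℕ) (r k : ℕ), PG A (Fin m) B s ∧ r ∣ N ^ k ∧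
          Cong N B (s *ᵥ u) (fun i => r * u' i))) ∧
    -- (2)
    (∀ (n N : ℕ) (A : Matrix (Fin n) (Fin n) ℕ) (u u' : Fin n → ℕ) (r r' k : ℕ), 2 ≤ N →
      (∀ i, 0 < u i) → (∀ i, 0 < u' i) → r ∣ N ^ k → r' ∣ N ^ k →
      Cong N A (fun i => r * u i) (fun i => r' * u' i) → Sim (ex A u N) (ex A u' N)) ∧
    -- (3)
    (∀ (n N : ℕ) (A : Matrix (Fin n) (Fin n) ℕ) (u u' : Fin n → ℕ), 2 ≤ N →
      (∀ i, 0 < u i) → (∀ i, 0 < u' i) →
      (∀ i, ((N : ℤ) • (1 : Matrix (Fin n) (Fin n) ℤ) - A.map (Nat.cast : ℕ → ℤ)).det ∣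
        (u i : ℤ) - u' i) → Sim (ex A u N) (ex A u' N)) ∧
    -- (4)
    (∀ (n m N : ℕ) (A : Matrix (Fin n) (Fin n) ℕ) (B : Matrix (Fin m) (Fin m) ℕ) (u : Fin n → ℕ)
      (u' : Fin m → ℕ), 2 ≤ N → (∀ i, ∑ j, A i j < N) → (∀ i, ∑ j, B i j < N) →
      (∀ i, 0 < u i) → (∀ i, 0 < u' i) →
      IsUnit ((N : ℤ) • (1 : Matrix (Fin m) (Fin m) ℤ) - B.map (Nat.cast : ℕ → ℤ)).det →
      (Sim (ex A u N) (ex B u' N) ↔ Sim A B)) := by
  have two : ∀ (n N : ℕ) (A : Matrix (Fin n) (Fin n) ℕ) (u u' : Fin n → ℕ) (r r' k : ℕ), 2 ≤ N →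
      (∀ i, 0 < u i) → (∀ i, 0 < u' i) → r ∣ N ^ k → r' ∣ N ^ k →
      Cong N A (fun i => r * u i) (fun i => r' * u' i) → Sim (ex A u N) (ex A u' N) := by
    intro n N A u u' r r' k hN hu hu' hr hr' hc
    have hr0 : 0 < r := Nat.pos_of_dvd_of_pos hr (Nat.pow_pos (by omega))
    have hr0' : 0 < r' := Nat.pos_of_dvd_of_pos hr' (Nat.pow_pos (by omega))
    have h1 := scale A N (by omega) k r u hr
    have h2 := scale A N (by omega) k r' u' hr'
    have h3 := interp A N hN _ _ (fun i => Nat.mul_pos hr0 (hu i))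
      (fun i => Nat.mul_pos hr0' (hu' i)) hc
    exact h1.trans (h3.trans (tg_symm h2))
  refine ⟨?_, two, ?_, ?_⟩
  · intro n m N A B u u' hN hA hB hu hu'
    exact ext_iff hN hA hB hu hu'
  · intro n N A u u' hN hu hu' hd
    refine two n N A u u' 1 1 0 hN hu hu' (by simp) (by simp) ?_
    simp only [one_mul]
    exact cong_of_det N A u u' hd
  · intro n m N A B u u' hN hA hB hu hu' hd
    rw [ext_iff hN hA hB hu hu']
    constructor
    · rintro ⟨s, r, k, hs, -, -⟩
      exact tg_of_PG hs
    · intro h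
      obtain ⟨s, hs⟩ := PG_of_tg ((sim_obj A B).1 h)
      exact ⟨s, 1, 0, hs, by simp, cong_of_det N B _ _ fun i => hd.dvd⟩

end Pool.Agent.Results.MP_993212_an.FullShiftExtensions
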