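import Pool.Agent.Q133.TR.Main

/-!
# Strong shift equivalence is decidable if strong shift equivalence to the transpose is decidable

For a square matrix `A` over the nonnegative integers and a number `N` larger than all row sums of
`A` let `En N A` be the matrix with the blocks `A`, the column `N - (row sum)`, `0` and `N`: from
every vertex `i` of the graph of `A` there are `N - ∑ j, A i j` edges to a new vertex with `N` loops.
Let `~` be strong shift equivalence over the nonnegative integers.

(3) `A ~ B` if and only if `En N A ~ En N B`.
(2) `A ~ B` if and only if `C ~ Cᵀ` for the direct sum `C` of `En N A` and the transpose of `En N B`.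
(1) Strong shift equivalence of pairs of matrices is many-one equivalent (by primitive recursive
functions) to the problem whether ONE given matrix `C` is strong shift equivalent to its transpose
(whether the edge shift of `C` is conjugate to its inverse). So Q1 has a positive answer if and only
if the second problem is decidable.

Proof. The column of `En N A` is the coboundary `(N - A) 1`. Along an elementary equivalence `A = R S`,
`B = S R` the coboundary `(N - A) w` goes to `(N - B) (S w)`, and the class of the matrix with the
column `(N - A) w` does not depend on `w` (descent by the operator `w ↦ ⌈A w / N⌉`). Conversely the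
vertices at which the number of the paths ending there grows slower than `N ^ k` are respected by
elementary equivalences, and the part of `En N A` (or of `C`) on these vertices is `A`.
-/

set_option autoImplicit false

namespace Pool.Agent.Results.MP_993212_an.TimeReversal

open Pool.Agent.Q324.SC.Mat Pool.Agent.Q133.TR Matrix

theorem result :
    -- (1)
    ((ComputablePred SSE ↔ ComputablePred Rev) ∧
      (∃ f : List (List ℕ) × List (List ℕ) → List (List ℕ), Primrec f ∧ ∀ p, SSE p ↔ Rev (f p)) ∧
      (∃ g : List (List ℕ) → List (List ℕ) × List (List ℕ), Primrec g ∧ ∀ L, Rev L ↔ SSE (g L))) ∧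
    -- (2)
    (∀ (n m N : ℕ) (A : Matrix (Fin n) (Fin n) ℕ) (B : Matrix (Fin m) (Fin m) ℕ), 0 < N →
      (∀ i, ∑ j, A i j < N) → (∀ i, ∑ j, B i j < N) →
      (Sim A B ↔
        Sim (fromBlocks (En N A) 0 0 (En N B)ᵀ) (fromBlocks (En N A) 0 0 (En N B)ᵀ)ᵀ)) ∧
    -- (3)
    (∀ (n m N : ℕ) (A : Matrix (Fin n) (Fin n) ℕ) (B : Matrix (Fin m) (Fin m) ℕ), 0 < N →
      (∀ i, ∑ j, A i j < N) → (∀ i, ∑ j, B i j < N) → (Sim A B ↔ Sim (En N A) (En N B))) := by
  have h1 : ∃ f : List (List ℕ) × List (List ℕ) → List (List ℕ),
      Primrec f ∧ ∀ p, SSE p ↔ Rev (f p) := ⟨red, red_primrec, red_iff⟩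
  have h2 : ∃ g : List (List ℕ) → List (List ℕ) × List (List ℕ),
      Primrec g ∧ ∀ L, Rev L ↔ SSE (g L) :=
    ⟨fun L => (L, tl L), Primrec.id.pair tl_primrec, rev_iff⟩
  refine ⟨⟨⟨?_, ?_⟩, h1, h2⟩, ?_, ?_⟩
  · intro h
    obtain ⟨g, hg, hg'⟩ := h2
    exact ComputablePred.computable_of_manyOneReducible ⟨g, hg.to_comp, hg'⟩ h
  · intro h
    obtain ⟨f, hf, hf'⟩ := h1
    exact ComputablePred.computable_of_manyOneReducible ⟨f, hf.to_comp, hf'⟩ h
  · intro n m N A B hN hA hB
    exact main_iff hN hA hB
  · intro n m N A B hN hA hB
    exact En_iff hN hA hB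

end Pool.Agent.Results.MP_993212_an.TimeReversal
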