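import Pool.Agent.Q324.SC.SSE

/-!
# Strong shift equivalence is decidable if it is decidable with few errors

There are `(H + 1) ^ (2 n ^ 2)` pairs of `n × n` matrices with entries in `[0, H]`. It is shown that
strong shift equivalence over the nonnegative integers is decidable as soon as some total computable
function errs on at most `H ^ ((1 - ε) n ^ 2)` of these pairs, up to a computable factor `K n`, for
one fixed `ε > 0`.

The reason: adding dead ends does not change the class of a matrix, that is new columns whose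
entries above the diagonal are arbitrary and new rows which are zero on and below the diagonal. For
large sizes these pairs are more numerous than the errors, and a majority vote among them gives the
answer.
-/

set_option autoImplicit false

namespace Pool.Agent.Results.MP_993212_an.WorstCaseFromMostPairs

open Pool.Agent.Q324.SC Pool.Agent.Q324.SC.Mat

lemma num (E K X a b q : ℕ) (hq : 1 ≤ q) (hX : 1 ≤ X) (hab : a ≤ q * b) (h : E ^ q ≤ K * X ^ a) :
    E ≤ K * X ^ b := by
  by_contra hc
  push Not at hc
  have h1 : (K * X ^ b) ^ q < E ^ q := Nat.pow_lt_pow_left hc (by omega)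
  have h2 : K ≤ K ^ q := by
    rcases Nat.eq_zero_or_pos K with h0 | h0
    · rw [h0]; exact Nat.zero_le _
    · exact Nat.le_self_pow (by omega) K
  have h3 : X ^ a ≤ (X ^ b) ^ q := by
    rw [← pow_mul, Nat.mul_comm]
    exact Nat.pow_le_pow_right hX hab
  have h4 : K * X ^ a ≤ (K * X ^ b) ^ q := by
    rw [mul_pow]
    exact Nat.mul_le_mul h2 h3
  omega

/-- (1) For every `q ≥ 1` strong shift equivalence over `ℕ` is decidable if and only if there are a
total computable `A` and a computable `K` such that for all `n`, `H` the number `E` of the pairs of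
`n × n` matrices with entries in `[0, H]` on which `A` errs satisfies
`E ^ q ≤ K n (H + 1) ^ ((q - 1) n ^ 2)`. (2) More precisely: it is enough that for some computable
`N` with `N d ≥ d + 2` and `K` the number of the errors for `n = N d` is at most
`K d (H + 1) ^ (n (n - 1) - d (d - 1) - 1)`. -/
theorem result :
    (∀ q : ℕ, 1 ≤ q → (ComputablePred SSE ↔
      ∃ (A : List (List ℕ) × List (List ℕ) → Bool) (K : ℕ → ℕ), Computable A ∧ Computable K ∧
        ∀ n H : ℕ, {p | p ∈ Inputs n H ∧ Errs A p}.encard ^ q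
          ≤ ((K n * (H + 1) ^ ((q - 1) * n ^ 2) : ℕ) : ℕ∞))) ∧
    (∀ (A : List (List ℕ) × List (List ℕ) → Bool) (N K : ℕ → ℕ), Computable A → Computable N →
      Computable K → (∀ d, d + 2 ≤ N d) →
      (∀ d H : ℕ, {p | p ∈ Inputs (N d) H ∧ Errs A p}.encard
        ≤ ((K d * (H + 1) ^ (N d * (N d - 1) - d * (d - 1) - 1) : ℕ) : ℕ∞)) →
      ComputablePred SSE) := by
  have tr : ∀ j, 2 * tri j = j * (j - 1) := by
    intro j
    have := two_tri j
    have h2 : j * (j - 1) = j * j - j := by rw [Nat.mul_sub, mul_one]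
    omega
  have h3 : ∀ (A : List (List ℕ) × List (List ℕ) → Bool) (N K : ℕ → ℕ), Computable A →
      Computable N → Computable K → (∀ d, d + 2 ≤ N d) →
      (∀ d H : ℕ, {p | p ∈ Inputs (N d) H ∧ Errs A p}.encard
        ≤ ((K d * (H + 1) ^ (N d * (N d - 1) - d * (d - 1) - 1) : ℕ) : ℕ∞)) →
      ComputablePred SSE := by
    intro A N K hA hN hK hN1 h
    refine sse_correct hA hN hK hN1 (fun d H => ?_)
    have e : 2 * (tri (N d) - tri d) - 1 = N d * (N d - 1) - d * (d - 1) - 1 := by
      rw [Nat.mul_sub, tr, tr]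
    rw [e]
    exact h d H
  refine ⟨fun q hq => ⟨?_, ?_⟩, h3⟩
  · rintro ⟨inst, hc⟩
    refine ⟨fun p => decide (SSE p), fun _ => 0, hc, Computable.const 0, fun n H => ?_⟩
    have h1 : {p | p ∈ Inputs n H ∧ Errs (fun p => decide (SSE p)) p} = ∅ := by
      ext p
      simp [Errs]
    rw [h1, Set.encard_empty, zero_pow (by omega)]
    simp
  · rintro ⟨A, K, hA, hK, h⟩
    obtain ⟨r, rfl⟩ : ∃ r, q = r + 1 := ⟨q - 1, by omega⟩
    have cN : Computable (fun d : ℕ => 2 * (r + 1) * (d + 1) ^ 2) := by
      have : Primrec (fun d : ℕ => 2 * (r + 1) * (d + 1) ^ 2) := by fun_prop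
      exact this.to_comp
    refine h3 A (fun d => 2 * (r + 1) * (d + 1) ^ 2) (fun d => K (2 * (r + 1) * (d + 1) ^ 2)) hA cN
      (hK.comp cN) (fun d => ?_) ?_
    · change d + 2 ≤ 2 * (r + 1) * (d + 1) ^ 2
      nlinarith [Nat.zero_le r, Nat.zero_le (r * (d + 1) ^ 2)]
    · intro d H
      obtain ⟨n, hn⟩ : ∃ n, n = 2 * (r + 1) * (d + 1) ^ 2 := ⟨_, rfl⟩
      change {p | p ∈ Inputs (2 * (r + 1) * (d + 1) ^ 2) H ∧ Errs A p}.encard
        ≤ ((K (2 * (r + 1) * (d + 1) ^ 2) * (H + 1) ^ (2 * (r + 1) * (d + 1) ^ 2 *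
          (2 * (r + 1) * (d + 1) ^ 2 - 1) - d * (d - 1) - 1) : ℕ) : ℕ∞)
      rw [← hn]
      have h1 := h n H
      obtain ⟨E, hE⟩ : ∃ E, E = {p | p ∈ Inputs n H ∧ Errs A p}.encard := ⟨_, rfl⟩
      rw [← hE] at h1 ⊢
      have hEt : E ≠ ⊤ := by
        intro ht
        rw [ht, ENat.top_pow (by omega)] at h1
        exact absurd h1 (not_le.2 (ENat.natCast_lt_top _))
      lift E to ℕ using hEt
      norm_cast at h1 ⊢
      refine num E _ _ _ _ (r + 1) (by omega) (by omega) ?_ h1
      have e1 : r + 1 - 1 = r := by omega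
      have hn1 : 1 ≤ n := by rw [hn]; exact Nat.one_le_iff_ne_zero.2 (by positivity)
      have e2 : n * (n - 1) = n * n - n := by rw [Nat.mul_sub, mul_one]
      have e3 : d * (d - 1) = d * d - d := by rw [Nat.mul_sub, mul_one]
      have e4 : (r + 1) * (n + d * d + 1) ≤ n * n := by
        have a1 : n * n = (r + 1) * (d + 1) ^ 2 * n + (r + 1) * (d + 1) ^ 2 * n := by
          nth_rewrite 1 [hn]
          ring
        have a2 : (r + 1) * n ≤ (r + 1) * (d + 1) ^ 2 * n := by
          have : 1 ≤ (d + 1) ^ 2 := Nat.one_le_pow _ _ (by omega)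
          nlinarith [Nat.mul_le_mul_left ((r + 1) * n) this]
        have a3 : (r + 1) * (d * d + 1) ≤ (r + 1) * (d + 1) ^ 2 * n := by
          have b1 : (r + 1) * (d * d + 1) ≤ (r + 1) * (d + 1) ^ 2 :=
            Nat.mul_le_mul_left _ (by nlinarith)
          exact b1.trans (Nat.le_mul_of_pos_right _ (by omega))
        have a4 : (r + 1) * (n + d * d + 1) = (r + 1) * n + (r + 1) * (d * d + 1) := by ring
        rw [a4, a1]
        exact Nat.add_le_add a2 a3
      have e5 : d * d ≤ n * n ∧ n + d * d + 1 ≤ n * n := by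
        constructor
        · nlinarith
        · nlinarith
      have e6 : (r + 1) * (n * (n - 1) - d * (d - 1) - 1) + (r + 1) * (n + d * d + 1)
          ≥ (r + 1) * (n * n) := by
        rw [← Nat.mul_add]
        refine Nat.mul_le_mul_left _ ?_
        rw [e2, e3]
        have : d ≤ d * d ∨ d = 0 := by
          rcases Nat.eq_zero_or_pos d with h0 | h0
          · exact Or.inr h0
          · exact Or.inl (Nat.le_mul_of_pos_left _ h0)
        omega
      have e7 : (r + 1) * (n * n) = r * n ^ 2 + n * n := by ring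
      rw [e1]
      omega

end Pool.Agent.Results.MP_993212_an.WorstCaseFromMostPairs
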